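import Mathlib
import Pool.Agent.H11.Selberg.Defs
import Pool.Agent.H11.SC.Final

set_option autoImplicit false

namespace Pool.Agent.H14.Old.SmallConductor

open Pool.Agent.H11.Selberg

/-- Let `F` be an element of the Selberg class without a pole which satisfies a functional
equation of degree `2` and conductor `1`, `2` or `3`.  Then `S_F(x) = log log x + O(1)`. -/
theorem result :
    ∀ (a : ℕ → ℂ) (F G : ℂ → ℂ), IsSelberg a F →
    Differentiable ℂ G → (∀ s, s ≠ 1 → G s = F s) →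
    ∀ (Q : ℝ) (r : ℕ) (lam : Fin r → ℝ) (mu : Fin r → ℂ) (ε : ℂ),
    0 < Q → (∀ j, 0 < lam j) → (∀ j, 0 ≤ (mu j).re) → ‖ε‖ = 1 →
    (∀ s : ℂ, 0 < s.re → s.re < 1 →
      completed Q lam mu F s =
        ε * (starRingEnd ℂ) (completed Q lam mu F (1 - (starRingEnd ℂ) s))) →
    2 * ∑ j, lam j = 2 →
    ((2 * Real.pi) ^ 2 * Q ^ 2 * ∏ j, (lam j) ^ (2 * lam j) = 1 ∨
      (2 * Real.pi) ^ 2 * Q ^ 2 * ∏ j, (lam j) ^ (2 * lam j) = 2 ∨
      (2 * Real.pi) ^ 2 * Q ^ 2 * ∏ j, (lam j) ^ (2 * lam j) = 3) →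
    ∃ C : ℝ, ∀ x : ℝ, 2 ≤ x → |S a x - Real.log (Real.log x)| ≤ C :=
  fun a F G hS hG hGF Q r lam mu ε hQ hlam hmu hε hfe hdeg hcond =>
    Pool.Agent.H11.SC.small_conductor a F hS G hG hGF Q r lam mu ε hQ hlam hmu hε hfe hdeg hcond

end Pool.Agent.H14.Old.SmallConductor
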